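import Pool.Agent.X249.Base
import Pool.Agent.H601R2.PP
import Pool.Agent.H634R2.GraphDefs
import Pool.Agent.NPC.Sat

/-!
# Automation for polynomial-time predicates
-/

set_option autoImplicit false

namespace Pool.Agent.X249

open Pool.Agent.NPC

section

variable {α β : Type} [TEnc α] [TEnc β]

theorem dec_iff_pp {p : α → Prop} [inst : ∀ a, Decidable (p a)] :
    Poly (fun a => @decide (p a) (inst a)) ↔ PP p :=
  ⟨fun h => ⟨_, h, fun a => by simp⟩, fun h => PP.dec h⟩

@[fun_prop]
theorem dec_ball {l : α → List β} {r : α → β → Prop} [inst : ∀ a, Decidable (∀ x ∈ l a, r a x)]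
    (hl : Poly l)
    (hr : Poly (fun p : α × β => @decide (r p.1 p.2) (Classical.propDecidable _))) :
    Poly (fun a => @decide (∀ x ∈ l a, r a x) (inst a)) :=
  PP.dec (PP.ball hl ⟨_, hr, fun a => by simp⟩)

@[fun_prop]
theorem dec_bex {l : α → List β} {r : α → β → Prop} [inst : ∀ a, Decidable (∃ x ∈ l a, r a x)]
    (hl : Poly l)
    (hr : Poly (fun p : α × β => @decide (r p.1 p.2) (Classical.propDecidable _))) :
    Poly (fun a => @decide (∃ x ∈ l a, r a x) (inst a)) :=
  PP.dec (PP.bex hl ⟨_, hr, fun a => by simp⟩)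

@[fun_prop]
theorem dec_and {p q : α → Prop} [inst : ∀ a, Decidable (p a ∧ q a)]
    (hp : Poly (fun a => @decide (p a) (Classical.propDecidable _)))
    (hq : Poly (fun a => @decide (q a) (Classical.propDecidable _))) :
    Poly (fun a => @decide (p a ∧ q a) (inst a)) :=
  PP.dec (PP.and ⟨_, hp, fun a => by simp⟩ ⟨_, hq, fun a => by simp⟩)

@[fun_prop]
theorem dec_or {p q : α → Prop} [inst : ∀ a, Decidable (p a ∨ q a)]
    (hp : Poly (fun a => @decide (p a) (Classical.propDecidable _)))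
    (hq : Poly (fun a => @decide (q a) (Classical.propDecidable _))) :
    Poly (fun a => @decide (p a ∨ q a) (inst a)) :=
  PP.dec (PP.or ⟨_, hp, fun a => by simp⟩ ⟨_, hq, fun a => by simp⟩)

@[fun_prop]
theorem dec_not {p : α → Prop} [inst : ∀ a, Decidable (¬ p a)]
    (hp : Poly (fun a => @decide (p a) (Classical.propDecidable _))) :
    Poly (fun a => @decide (¬ p a) (inst a)) :=
  PP.dec (PP.not ⟨_, hp, fun a => by simp⟩)

@[fun_prop]
theorem dec_imp {p q : α → Prop} [inst : ∀ a, Decidable (p a → q a)]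
    (hp : Poly (fun a => @decide (p a) (Classical.propDecidable _)))
    (hq : Poly (fun a => @decide (q a) (Classical.propDecidable _))) :
    Poly (fun a => @decide (p a → q a) (inst a)) := by
  refine PP.dec (PP.congr (PP.or (PP.not (p := p) ⟨_, hp, fun a => by simp⟩)
    (q := q) ⟨_, hq, fun a => by simp⟩) fun a => ?_)
  tauto

@[fun_prop]
theorem dec_iff {p q : α → Prop} [inst : ∀ a, Decidable (p a ↔ q a)]
    (hp : Poly (fun a => @decide (p a) (Classical.propDecidable _)))
    (hq : Poly (fun a => @decide (q a) (Classical.propDecidable _))) :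
    Poly (fun a => @decide (p a ↔ q a) (inst a)) := by
  have hp' : PP p := ⟨_, hp, fun a => by simp⟩
  have hq' : PP q := ⟨_, hq, fun a => by simp⟩
  refine PP.dec (PP.congr (PP.or (PP.and hp' hq') (PP.and hp'.not hq'.not)) fun a => ?_)
  tauto

@[fun_prop]
theorem dec_lt {f g : α → ℕ} [inst : ∀ a, Decidable (f a < g a)] (hf : Poly f) (hg : Poly g) :
    Poly (fun a => @decide (f a < g a) (inst a)) := PP.dec (PP.lt hf hg)

@[fun_prop]
theorem dec_le {f g : α → ℕ} [inst : ∀ a, Decidable (f a ≤ g a)] (hf : Poly f) (hg : Poly g) :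
    Poly (fun a => @decide (f a ≤ g a) (inst a)) := PP.dec (PP.le hf hg)

@[fun_prop]
theorem dec_ne {f g : α → β} [inst : ∀ a, Decidable (f a ≠ g a)] (hf : Poly f) (hg : Poly g) :
    Poly (fun a => @decide (f a ≠ g a) (inst a)) := PP.dec (PP.ne hf hg)

@[fun_prop]
theorem dec_bool {f : α → Bool} [inst : ∀ a, Decidable (f a = true)] (hf : Poly f) :
    Poly (fun a => @decide (f a = true) (inst a)) := PP.dec (PP.bool hf)

theorem nodup_iff_zipIdx {β : Type} (l : List β) :
    (∀ x ∈ l.zipIdx, ∀ y ∈ l.zipIdx, x.1 ≠ y.1 ∨ x.2 = y.2) ↔ l.Nodup := by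
  rw [List.nodup_iff_injective_getElem]
  constructor
  · intro h i j hij
    have h1 := h (l[i], i.1) (by
      rw [List.mem_zipIdx_iff_getElem?]
      simp) (l[j], j.1) (by
      rw [List.mem_zipIdx_iff_getElem?]
      simp)
    rcases h1 with h1 | h1
    · exact absurd hij h1
    · exact Fin.ext h1
  · rintro h ⟨x, i⟩ hx ⟨y, j⟩ hy
    rw [List.mem_zipIdx_iff_getElem?] at hx hy
    simp only at hx hy ⊢
    by_cases hxy : x = y
    · right
      obtain ⟨hi, hi'⟩ := List.getElem?_eq_some_iff.1 hx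
      obtain ⟨hj, hj'⟩ := List.getElem?_eq_some_iff.1 hy
      have := @h ⟨i, hi⟩ ⟨j, hj⟩ (by simp only; rw [hi', hj', hxy])
      simpa using this
    · exact Or.inl hxy

@[fun_prop]
theorem dec_nodup {l : α → List β} [inst : ∀ a, Decidable (l a).Nodup] (hl : Poly l) :
    Poly (fun a => @decide (l a).Nodup (inst a)) := by
  refine PP.dec (PP.congr (p := fun a => ∀ x ∈ (l a).zipIdx, ∀ y ∈ (l a).zipIdx,
    x.1 ≠ y.1 ∨ x.2 = y.2) ?_ (fun a => nodup_iff_zipIdx _))
  classical
  rw [← dec_iff_pp]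
  fun_prop

/-- Removing repetitions. -/
@[fun_prop]
theorem poly_dedup [DecidableEq β] {l : α → List β} (hl : Poly l) :
    Poly (fun a => (l a).dedup) := by
  obtain ⟨r, hr⟩ := hl.sz_le
  have key : ∀ l : List β, l.foldr (fun b s => if b ∈ s then s else b :: s) [] = l.dedup := by
    intro l
    induction l with
    | nil => rfl
    | cons b l ih =>
      rw [List.foldr_cons, ih]
      by_cases h : b ∈ l
      · rw [List.dedup_cons_of_mem h, if_pos (List.mem_dedup.2 h)]
      · rw [List.dedup_cons_of_notMem h, if_neg (fun h' => h (List.mem_dedup.1 h'))]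
  have hsz : ∀ l : List β, sz (l.dedup) ≤ sz l := by
    intro l
    induction l with
    | nil => simp
    | cons b l ih =>
      by_cases h : b ∈ l
      · rw [List.dedup_cons_of_mem h, sz_list_cons]
        omega
      · rw [List.dedup_cons_of_notMem h, sz_list_cons, sz_list_cons]
        omega
  refine (NPC.Poly.foldr (s := fun _ => [])
    (F := fun _ b (s : List β) => if b ∈ s then s else b :: s)
    hl (NPC.Poly.const _) ?_ r ?_).congr fun a => key _
  · exact NPC.Poly.ite (p := fun p : α × β × List β => p.2.1 ∈ p.2.2)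
      (NPC.Poly.decide_mem (NPC.Poly.fst (NPC.Poly.snd NPC.Poly.id))
        (NPC.Poly.snd (NPC.Poly.snd NPC.Poly.id)))
      (NPC.Poly.snd (NPC.Poly.snd NPC.Poly.id)) (NPC.Poly.cons
        (NPC.Poly.fst (NPC.Poly.snd NPC.Poly.id)) (NPC.Poly.snd (NPC.Poly.snd NPC.Poly.id)))
  · intro a k _
    rw [key]
    exact (hsz _).trans ((NPC.Poly.sz_drop_le _ _).trans (hr a))

attribute [fun_prop] Poly.index

/-- Membership in `NP` from a polynomial-time relation. -/
theorem inNPP_rel [TDec α] [TDec β] {P : α → Prop} {R : α → β → Prop}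
    (hR : Poly (fun x : α × β => @decide (R x.1 x.2) (Classical.propDecidable _)))
    (p : Polynomial ℕ) (h : ∀ a, P a ↔ ∃ w, sz w ≤ p.eval (sz a) ∧ R a w) : InNPP P := by
  refine inNPP_of hR p fun a => (h a).trans ?_
  simp

/-- The size of a natural number is bounded by that of a larger one. -/
theorem sz_nat_le_linear (n : ℕ) : sz n ≤ 4 * n + 1 := by
  refine (sz_nat_le n).trans ?_
  have : n.size ≤ n := by
    rw [Nat.size_le]
    exact Nat.lt_two_pow_self
  omega

end

/-- A duplicate-free list, all whose members have a tag in the list `T`. -/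
def Tagged {γ : Type} (tag : γ → ℕ) (T : List ℕ) (l : List γ) : Prop :=
  l.Nodup ∧ ∀ x ∈ l, tag x ∈ T

theorem Tagged.single {α γ : Type} {tag : γ → ℕ} {c : ℕ} {L : List α} {φ : α → γ} (hL : L.Nodup)
    (hinj : ∀ a ∈ L, ∀ b ∈ L, φ a = φ b → a = b) (h : ∀ a, tag (φ a) = c) :
    Tagged tag [c] (L.map φ) := by
  refine ⟨hL.map_on hinj, ?_⟩
  intro x hx
  obtain ⟨a, -, rfl⟩ := List.mem_map.1 hx
  simp [h a]

theorem Tagged.app {γ : Type} {tag : γ → ℕ} {T T' : List ℕ} {l l' : List γ}
    (h : Tagged tag T l) (h' : Tagged tag T' l') (hT : ∀ x ∈ T, x ∉ T') :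
    Tagged tag (T ++ T') (l ++ l') := by
  refine ⟨h.1.append h'.1 (fun x hx hx' => hT _ (h.2 x hx) (h'.2 x hx')), ?_⟩
  intro x hx
  rw [List.mem_append] at hx ⊢
  exact hx.imp (h.2 x) (h'.2 x)

open H634R2 in
/-- Relabelling the vertices of a graph. -/
theorem isGraph_map {β : Type} {V : List β} {E : List (β × β)} {f : β → ℕ} (hV : V.Nodup)
    (hf : ∀ x ∈ V, ∀ y ∈ V, f x = f y → x = y) (hE : ∀ e ∈ E, e.1 ∈ V ∧ e.2 ∈ V ∧ e.1 ≠ e.2)
    (hN : (E.map (fun e => s(e.1, e.2))).Nodup) :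
    IsGraph (V.map f) (E.map (fun e => (f e.1, f e.2))) := by
  refine ⟨hV.map_on hf, ?_, ?_⟩
  · intro a ha
    obtain ⟨a', ha', rfl⟩ := List.mem_map.1 ha
    obtain ⟨h1, h2, h3⟩ := hE a' ha'
    exact ⟨List.mem_map_of_mem h1, List.mem_map_of_mem h2, fun h => h3 (hf _ h1 _ h2 h)⟩
  · rw [List.map_map]
    have hE' : E.Nodup := List.Nodup.of_map _ hN
    refine hE'.map_on ?_
    intro a ha b hb hab
    obtain ⟨a1, a2, -⟩ := hE a ha
    obtain ⟨b1, b2, -⟩ := hE b hb
    refine List.inj_on_of_nodup_map hN ha hb ?_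
    simp only [Function.comp, Sym2.eq_iff] at hab ⊢
    rcases hab with ⟨h1, h2⟩ | ⟨h1, h2⟩
    · exact Or.inl ⟨hf _ a1 _ b1 h1, hf _ a2 _ b2 h2⟩
    · exact Or.inr ⟨hf _ a1 _ b2 h1, hf _ a2 _ b1 h2⟩

end Pool.Agent.X249
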