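import Pool.Agent.X249.Kit
import Pool.Agent.H634R2.Clique

/-!
# Independent sets of graphs with the vertices `0, ..., n - 1`: hardness
-/

set_option autoImplicit false

namespace Pool.Agent.X249

open Pool.Agent.NPC Pool.Agent.NPC.H634R2

theorem index_getElem {β : Type} {l : List β} (h : l.Nodup) (i : ℕ) (hi : i < l.length) :
    index l l[i] = i := by
  have h1 := getElem?_index (l := l) (v := l[i]) (List.getElem_mem hi)
  obtain ⟨h2, h3⟩ := List.getElem?_eq_some_iff.1 h1
  exact (List.Nodup.getElem_inj_iff h).1 h3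

theorem map_index {β : Type} {l : List β} (h : l.Nodup) : l.map (index l) = List.range l.length := by
  apply List.ext_getElem
  · simp
  · intro i h1 h2
    rw [List.getElem_map, List.getElem_range, index_getElem h]

/-- Normalized graphs: the vertices are `0, ..., n - 1`. -/
def Norm (I : (List ℕ × List (ℕ × ℕ)) × ℕ) : Prop :=
  IsGraph I.1.1 I.1.2 ∧ I.1.1 = List.range I.1.1.length ∧ 2 ≤ I.2

noncomputable def norm (I : (List ℕ × List (ℕ × ℕ)) × ℕ) : (List ℕ × List (ℕ × ℕ)) × ℕ :=
  ((I.1.1.map (fun v => index I.1.1 v), I.1.2.map (fun e => (index I.1.1 e.1, index I.1.1 e.2))), I.2)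

theorem poly_norm : Poly norm := by
  unfold norm
  fun_prop

theorem norm_graph {I : (List ℕ × List (ℕ × ℕ)) × ℕ} (h : IsGraph I.1.1 I.1.2) :
    IsGraph (norm I).1.1 (norm I).1.2 :=
  isGraph_map h.1 (fun _ hx _ hy hxy => index_inj hx hy hxy) h.2.1 h.2.2

/-- The clique problem is hard also for normalized graphs. -/
theorem hardPr_cliqueN : HardPr Norm CLIQUE := by
  refine hardPr_CLIQUE.trans poly_norm ?_ ?_
  · rintro I ⟨h, hk⟩
    refine ⟨norm_graph h, ?_, hk⟩
    unfold norm
    rw [map_index h.1]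
    simp
  · rintro I ⟨h, hk⟩
    rw [CLIQUE, CLIQUE, and_iff_right h, and_iff_right (norm_graph h)]
    constructor
    · rintro ⟨K, hKV, hKc, hK⟩
      refine ⟨K.image (index I.1.1), ?_, ?_, ?_⟩
      · intro v hv
        obtain ⟨u, hu, rfl⟩ := Finset.mem_image.1 hv
        exact List.mem_map_of_mem (hKV u hu)
      · rw [Finset.card_image_of_injOn, hKc]
        · rfl
        · intro x hx y hy hxy
          exact index_inj (hKV x hx) (hKV y hy) hxy
      · intro u hu v hv huv
        obtain ⟨u', hu', rfl⟩ := Finset.mem_image.1 hu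
        obtain ⟨v', hv', rfl⟩ := Finset.mem_image.1 hv
        have : u' ≠ v' := fun h => huv (by rw [h])
        rcases hK u' hu' v' hv' this with h1 | h1
        · exact Or.inl (List.mem_map.2 ⟨_, h1, rfl⟩)
        · exact Or.inr (List.mem_map.2 ⟨_, h1, rfl⟩)
    · rintro ⟨K, hKV, hKc, hK⟩
      have hmem : ∀ u, u ∈ I.1.1 → ∀ v, v ∈ I.1.1 →
          (index I.1.1 u, index I.1.1 v) ∈ (norm I).1.2 → (u, v) ∈ I.1.2 := by
        intro u hu v hv huv
        obtain ⟨e, he, hee⟩ := List.mem_map.1 huv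
        have h1 : index I.1.1 e.1 = index I.1.1 u := congrArg Prod.fst hee
        have h2 : index I.1.1 e.2 = index I.1.1 v := congrArg Prod.snd hee
        obtain ⟨h3, h4, -⟩ := h.2.1 e he
        rw [← index_inj h3 hu h1, ← index_inj h4 hv h2]
        exact he
      refine ⟨(I.1.1.filter (fun v => decide (index I.1.1 v ∈ K))).toFinset, ?_, ?_, ?_⟩
      · intro v hv
        rw [List.mem_toFinset, List.mem_filter] at hv
        exact hv.1
      · refine Eq.trans ?_ hKc
        rw [← Finset.card_image_of_injOn (f := index I.1.1)]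
        · congr 1
          ext z
          simp only [Finset.mem_image, List.mem_toFinset, List.mem_filter, decide_eq_true_eq]
          constructor
          · rintro ⟨v, ⟨-, hv⟩, rfl⟩
            exact hv
          · intro hz
            obtain ⟨v, hv, rfl⟩ := List.mem_map.1 (hKV z hz)
            exact ⟨v, ⟨hv, hz⟩, rfl⟩
        · intro x hx y hy hxy
          rw [Finset.mem_coe, List.mem_toFinset, List.mem_filter] at hx hy
          exact index_inj hx.1 hy.1 hxy
      · intro u hu v hv huv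
        rw [List.mem_toFinset, List.mem_filter, decide_eq_true_eq] at hu hv
        have hne : index I.1.1 u ≠ index I.1.1 v := fun h => huv (index_inj hu.1 hv.1 h)
        rcases hK _ hu.2 _ hv.2 hne with h1 | h1
        · exact Or.inl (hmem u hu.1 v hv.1 h1)
        · exact Or.inr (hmem v hv.1 u hu.1 h1)

/-- The complement of a graph. -/
def compE (V : List ℕ) (E : List (ℕ × ℕ)) : List (ℕ × ℕ) :=
  (V ×ˢ V).filter (fun p => decide (p.1 < p.2 ∧ (p.1, p.2) ∉ E ∧ (p.2, p.1) ∉ E))

theorem mem_compE {V : List ℕ} {E : List (ℕ × ℕ)} {p : ℕ × ℕ} : p ∈ compE V E ↔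
    (p.1 ∈ V ∧ p.2 ∈ V) ∧ p.1 < p.2 ∧ (p.1, p.2) ∉ E ∧ (p.2, p.1) ∉ E := by
  rw [compE, List.mem_filter, List.mem_product, decide_eq_true_eq]

theorem compE_graph {V : List ℕ} {E : List (ℕ × ℕ)} (h : IsGraph V E) : IsGraph V (compE V E) := by
  refine ⟨h.1, ?_, ?_⟩
  · intro e he
    rw [mem_compE] at he
    exact ⟨he.1.1, he.1.2, he.2.1.ne⟩
  · refine List.Nodup.map_on ?_ ((h.1.product h.1).filter _)
    intro a ha b hb hab
    have ha' := (mem_compE.1 ha).2.1
    have hb' := (mem_compE.1 hb).2.1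
    rcases Sym2.eq_iff.1 hab with ⟨h1, h2⟩ | ⟨h1, h2⟩
    · exact Prod.ext h1 h2
    · omega

/-- The graph has a set of `k` pairwise non-adjacent vertices. -/
def HasIS (V : List ℕ) (E : List (ℕ × ℕ)) (k : ℕ) : Prop :=
  ∃ S : Finset ℕ, (∀ v ∈ S, v ∈ V) ∧ S.card = k ∧ ∀ e ∈ E, ¬ (e.1 ∈ S ∧ e.2 ∈ S)

/-- The independent set problem. -/
def INDSET (I : (List ℕ × List (ℕ × ℕ)) × ℕ) : Prop :=
  IsGraph I.1.1 I.1.2 ∧ HasIS I.1.1 I.1.2 I.2

theorem hardPr_IS : HardPr Norm INDSET := by
  refine hardPr_cliqueN.trans (f := fun I => ((I.1.1, compE I.1.1 I.1.2), I.2)) ?_ ?_ ?_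
  · unfold compE
    fun_prop
  · rintro I ⟨h, h2, h3⟩
    exact ⟨compE_graph h, h2, h3⟩
  · rintro I ⟨h, h2, h3⟩
    rw [CLIQUE, INDSET, and_iff_right h, and_iff_right (compE_graph h)]
    refine exists_congr fun S => and_congr_right fun hS => and_congr_right fun _ => ?_
    constructor
    · rintro hK e he ⟨h4, h5⟩
      rw [mem_compE] at he
      rcases hK _ h4 _ h5 he.2.1.ne with h6 | h6
      · exact he.2.2.1 h6
      · exact he.2.2.2 h6
    · intro hI u hu v hv huv
      by_contra hc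
      rw [not_or] at hc
      rcases Nat.lt_or_gt_of_ne huv with h4 | h4
      · exact hI (u, v) (mem_compE.2 ⟨⟨hS u hu, hS v hv⟩, h4, hc⟩) ⟨hu, hv⟩
      · exact hI (v, u) (mem_compE.2 ⟨⟨hS v hv, hS u hu⟩, h4, hc.2, hc.1⟩) ⟨hv, hu⟩

end Pool.Agent.X249
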