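import Pool.Agent.NPC.Dec
import Pool.Agent.H671R2.PolyAuto

/-!
# Small helpers for reductions
-/

set_option autoImplicit false

namespace Pool.Agent.X249

open Pool.Agent.NPC

theorem sz_filter_le {β : Type} [TEnc β] (p : β → Bool) : ∀ l : List β, sz (l.filter p) ≤ sz l
  | [] => le_rfl
  | a :: l => by
    have ih := sz_filter_le p l
    by_cases h : p a = true
    · rw [List.filter_cons_of_pos h, sz_list_cons, sz_list_cons]; omega
    · rw [List.filter_cons_of_neg h, sz_list_cons]; omega

/-- Lower bound for a count. -/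
theorem le_countP {β : Type} {L A : List β} {p : β → Bool} (hL : L.Nodup)
    (h : ∀ x ∈ L, x ∈ A ∧ p x = true) : L.length ≤ A.countP p := by
  rw [List.countP_eq_length_filter]
  apply List.Subperm.length_le
  exact List.subperm_of_subset hL fun x hx => List.mem_filter.2 ⟨(h x hx).1, (h x hx).2⟩

/-- Upper bound for a count. -/
theorem countP_le {β : Type} {L A : List β} {p : β → Bool} (hA : A.Nodup)
    (h : ∀ x ∈ A, p x = true → x ∈ L) : A.countP p ≤ L.length := by
  rw [List.countP_eq_length_filter]
  apply List.Subperm.length_le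
  exact List.subperm_of_subset (hA.filter _) fun x hx =>
    h x (List.mem_filter.1 hx).1 (List.mem_filter.1 hx).2

/-- A hard promise problem is hard together with the promise. -/
theorem HardPr.and_hardI {α : Type} [TEnc α] {Pr P : α → Prop} (h : HardPr Pr P) :
    HardI (fun a => Pr a ∧ P a) := by
  intro L hL
  obtain ⟨f, hf, hpr, hfL⟩ := h L hL
  exact ⟨f, hf, fun x => (hfL x).trans ⟨fun hx => ⟨hpr x, hx⟩, fun hx => hx.2⟩⟩

end Pool.Agent.X249
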